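import Pool.Agent.R922.HK.Stm

/-! HK-SMALL: differences `s ≤ N`. -/

namespace R922.HK

theorem hs_add_ge (N i u m : ℕ) : A N i u + m * N ≤ A N i (u + m) := by
  induction m with
  | zero => simp
  | succ m ih =>
    rw [← add_assoc, A_succ]
    have : (m + 1) * N = m * N + N := by ring
    omega

theorem hs_dl0 {N i u : ℕ} (h : dl N i u = 0) : X u < N - i := by
  by_contra hc
  push Not at hc
  have h1 := T_mono hc
  have h2 := pos_eq u
  unfold dl at h
  rw [if_pos (by omega)] at h
  omega

theorem hs_dl1 {N i u : ℕ} (h : dl N i u = 1) : N - i ≤ X u := by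
  by_contra hc
  push Not at hc
  have h1 := T_mono (show X u + 1 ≤ N - i by omega)
  rw [T_succ] at h1
  have h2 := pos_eq u
  have h3 := J_lt u
  unfold dl at h
  rw [if_neg (by omega)] at h
  omega

theorem hs_dl_of_X {N i u : ℕ} (h : N - i ≤ X u) : dl N i u = 1 := by
  have h1 := T_mono h
  have h2 := pos_eq u
  unfold dl
  rw [if_pos (by omega)]

theorem hs_eq_of {u v : ℕ} (hX : X u = X v) (hJ : J u = J v) : u = v := by
  have h1 := pos_eq u
  have h2 := pos_eq v
  rw [hX, hJ] at h1
  omega

theorem hs_lt_of {u v : ℕ} (hX : X u = X v) (hJ : J u < J v) : u < v := by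
  have h1 := pos_eq u
  have h2 := pos_eq v
  rw [hX] at h1
  omega

theorem hs_B (N i u : ℕ) : B N i u = A N i u + X u := rfl

/-- two members of a filtered family with same block number and same `J + dl` are equal -/
theorem hs_inj {N i u v : ℕ} (hX : X u = X v) (h : J u + dl N i u = J v + dl N i v) : u = v := by
  rcases Nat.lt_trichotomy (J u) (J v) with h1 | h1 | h1
  · have := dl_mono N i (hs_lt_of hX h1).le
    omega
  · exact hs_eq_of hX h1
  · have := dl_mono N i (hs_lt_of hX.symm h1).le
    omega

theorem hs_AB0 (N i s : ℕ) : (AB N i 0 s).card ≤ s := by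
  have : AB N i 0 s ⊆ (Finset.range s).image (fun k => T s + k) := by
    intro u hu
    rw [mem_AB, add_zero, hs_B] at hu
    have hX : X u = s := by omega
    rw [Finset.mem_image]
    refine ⟨J u, ?_, ?_⟩
    · rw [Finset.mem_range]
      have := J_lt u
      omega
    · have := pos_eq u
      rw [hX] at this
      exact this
  refine (Finset.card_le_card this).trans (Finset.card_image_le.trans ?_)
  rw [Finset.card_range]

theorem hs_BA1 {N i s : ℕ} (hi : i < N) (hs1 : 1 ≤ s) (hs : s < N) :
    (BA N i 1 s).card ≤ s := by
  have key : ∀ u ∈ BA N i 1 s, u + 1 ≤ U N i ∧ N + J u + dl N i u = X u + s := by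
    intro u hu
    rw [mem_BA, A_succ, hs_B] at hu
    exact ⟨hu.1, by omega⟩
  have inj : Set.InjOn X (BA N i 1 s : Set ℕ) := by
    intro u hu v hv huv
    have h1 := (key u hu).2
    have h2 := (key v hv).2
    apply hs_inj (N := N) (i := i) huv
    omega
  rw [← Finset.card_image_of_injOn inj]
  rcases Nat.lt_or_ge i s with his | his
  · have hsub : (BA N i 1 s).image X ⊆ Finset.Icc (N - s) (N - 1) := by
      intro x hx
      rw [Finset.mem_image] at hx
      obtain ⟨u, hu, rfl⟩ := hx
      obtain ⟨h1, h2⟩ := key u hu
      rw [Finset.mem_Icc]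
      refine ⟨by omega, ?_⟩
      have h3 : X u ≤ N := X_le hi (by omega)
      by_contra hc
      have h4 : X u = N := by omega
      have h5 : dl N i u = 1 := hs_dl_of_X (by omega)
      have h6 := pos_eq u
      rw [h4] at h6
      unfold U at h1
      omega
    refine (Finset.card_le_card hsub).trans ?_
    rw [Nat.card_Icc]
    omega
  · have hsub : (BA N i 1 s).image X ⊆ Finset.Icc (N + 1 - s) N := by
      intro x hx
      rw [Finset.mem_image] at hx
      obtain ⟨u, hu, rfl⟩ := hx
      obtain ⟨h1, h2⟩ := key u hu
      rw [Finset.mem_Icc]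
      refine ⟨?_, X_le hi (by omega)⟩
      by_contra hc
      have h3 : J u + dl N i u = 0 := by omega
      have h4 : dl N i u = 1 := hs_dl_of_X (by omega)
      omega
    refine (Finset.card_le_card hsub).trans ?_
    rw [Nat.card_Icc]
    omega

theorem small : P_small := by
  intro N i s hi hs1 hs
  refine ⟨?_, ?_, ?_, ?_, hs_AB0 N i s, hs_BA1 hi hs1 hs⟩
  · intro m hm
    rw [Finset.eq_empty_iff_forall_notMem]
    intro u hu
    rw [mem_AA] at hu
    have h1 := hs_add_ge N i u m
    have h2 : N ≤ m * N := Nat.le_mul_of_pos_left N hm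
    omega
  · intro m hm
    rw [Finset.eq_empty_iff_forall_notMem]
    intro u hu
    rw [mem_BB, hs_B, hs_B] at hu
    have h1 := hs_add_ge N i u m
    have h2 : N ≤ m * N := Nat.le_mul_of_pos_left N hm
    have h3 := X_mono (show u ≤ u + m by omega)
    omega
  · intro m hm
    rw [Finset.eq_empty_iff_forall_notMem]
    intro u hu
    rw [mem_AB, hs_B] at hu
    have h1 := hs_add_ge N i u m
    have h2 : N ≤ m * N := Nat.le_mul_of_pos_left N hm
    omega
  · intro m hm
    rw [Finset.eq_empty_iff_forall_notMem]
    intro u hu
    rw [mem_BA, hs_B] at hu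
    have h1 := hs_add_ge N i u m
    have h2 : 2 * N ≤ m * N := Nat.mul_le_mul_right N hm
    have h3 : X u ≤ N := X_le hi (by omega)
    omega

theorem smallN : P_smallN := by
  intro N i hi
  refine ⟨?_, ?_, ?_, ?_, ?_⟩
  · intro m hm
    rw [Finset.eq_empty_iff_forall_notMem]
    intro u hu
    rw [mem_AA] at hu
    have h1 := hs_add_ge N i u m
    have h2 : 2 * N ≤ m * N := Nat.mul_le_mul_right N hm
    omega
  · intro m hm
    rw [Finset.eq_empty_iff_forall_notMem]
    intro u hu
    rw [mem_BB, hs_B, hs_B] at hu
    have h1 := hs_add_ge N i u m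
    have h2 : 2 * N ≤ m * N := Nat.mul_le_mul_right N hm
    have h3 := X_mono (show u ≤ u + m by omega)
    omega
  · intro m hm
    rw [Finset.eq_empty_iff_forall_notMem]
    intro u hu
    rw [mem_AB, hs_B] at hu
    have h1 := hs_add_ge N i u m
    have h2 : N ≤ m * N := Nat.le_mul_of_pos_left N hm
    have h3 := X_pos (u + m)
    omega
  · intro m hm
    rw [Finset.eq_empty_iff_forall_notMem]
    intro u hu
    rw [mem_BA, hs_B] at hu
    obtain ⟨m', rfl⟩ : ∃ m', m = 1 + (m' + 1) := ⟨m - 2, by omega⟩
    have h1 := hs_add_ge N i (u + 1) (m' + 1)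
    have h2 : N ≤ (m' + 1) * N := Nat.le_mul_of_pos_left N (by omega)
    have h3 : X u ≤ N := X_le hi (by omega)
    have h4 := A_succ N i u
    have h5 : u + (1 + (m' + 1)) = u + 1 + (m' + 1) := by ring
    rw [h5] at hu
    have h6 : J u + dl N i u ≤ 0 := by omega
    have h7 : X u = N := by omega
    have h8 : dl N i u = 1 := hs_dl_of_X (by omega)
    omega
  · -- the four cardinalities
    have c1 : (AA N i 1 N).card ≤ N - i - 1 := by
      have key : ∀ u ∈ AA N i 1 N, J u = 0 ∧ dl N i u = 0 := by
        intro u hu
        rw [mem_AA, A_succ] at hu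
        omega
      have inj : Set.InjOn X (AA N i 1 N : Set ℕ) := by
        intro u hu v hv huv
        have h1 := (key u hu).1
        have h2 := (key v hv).1
        exact hs_eq_of huv (by omega)
      rw [← Finset.card_image_of_injOn inj]
      have hsub : (AA N i 1 N).image X ⊆ Finset.Icc 1 (N - i - 1) := by
        intro x hx
        rw [Finset.mem_image] at hx
        obtain ⟨u, hu, rfl⟩ := hx
        have h1 := hs_dl0 (key u hu).2
        have h2 := X_pos u
        rw [Finset.mem_Icc]
        omega
      refine (Finset.card_le_card hsub).trans ?_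
      rw [Nat.card_Icc]
      omega
    have c2 : (BB N i 1 N).card ≤ N - i - 2 := by
      have key : ∀ u ∈ BB N i 1 N, J u = 0 ∧ dl N i u = 0 ∧ 2 ≤ X u := by
        intro u hu
        rw [mem_BB, hs_B, hs_B, A_succ] at hu
        have h1 := step u
        omega
      have inj : Set.InjOn X (BB N i 1 N : Set ℕ) := by
        intro u hu v hv huv
        have h1 := (key u hu).1
        have h2 := (key v hv).1
        exact hs_eq_of huv (by omega)
      rw [← Finset.card_image_of_injOn inj]
      have hsub : (BB N i 1 N).image X ⊆ Finset.Icc 2 (N - i - 1) := by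
        intro x hx
        rw [Finset.mem_image] at hx
        obtain ⟨u, hu, rfl⟩ := hx
        have h1 := hs_dl0 (key u hu).2.1
        have h2 := (key u hu).2.2
        rw [Finset.mem_Icc]
        omega
      refine (Finset.card_le_card hsub).trans ?_
      rw [Nat.card_Icc]
      omega
    have c3 : (AB N i 0 N).card ≤ i + 1 := by
      have hsub : AB N i 0 N ⊆ (Finset.range (i + 1)).image (fun k => T N + k) := by
        intro u hu
        rw [mem_AB, add_zero, hs_B] at hu
        have hX : X u = N := by omega
        have h1 := pos_eq u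
        rw [hX] at h1
        rw [Finset.mem_image]
        refine ⟨J u, ?_, h1⟩
        rw [Finset.mem_range]
        have h2 := hu.1
        unfold U at h2
        omega
      refine (Finset.card_le_card hsub).trans (Finset.card_image_le.trans ?_)
      rw [Finset.card_range]
    have c4 : (BA N i 1 N).card ≤ i := by
      have key : ∀ u ∈ BA N i 1 N, u + 1 ≤ U N i ∧ J u + 1 = X u ∧ dl N i u = 1 := by
        intro u hu
        rw [mem_BA, A_succ, hs_B] at hu
        have h1 := J_lt u
        have h2 := dl_le N i u
        omega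
      have inj : Set.InjOn X (BA N i 1 N : Set ℕ) := by
        intro u hu v hv huv
        have h1 := (key u hu).2.1
        have h2 := (key v hv).2.1
        exact hs_eq_of huv (by omega)
      rw [← Finset.card_image_of_injOn inj]
      have hsub : (BA N i 1 N).image X ⊆ Finset.Icc (N - i) (N - 1) := by
        intro x hx
        rw [Finset.mem_image] at hx
        obtain ⟨u, hu, rfl⟩ := hx
        obtain ⟨h1, h2, h3⟩ := key u hu
        have h4 := hs_dl1 h3
        have h5 : X u ≤ N := X_le hi (by omega)
        have h6 := pos_eq u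
        rw [Finset.mem_Icc]
        refine ⟨h4, ?_⟩
        by_contra hc
        have h7 : X u = N := by omega
        rw [h7] at h6
        unfold U at h1
        omega
      refine (Finset.card_le_card hsub).trans ?_
      rw [Nat.card_Icc]
      omega
    omega

end R922.HK
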